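import Mathlib

set_option autoImplicit false

/-!
# F-nef divisors on `M̄_{0,n}` and curves whose collisions can be coloured

The marks are `0, …, p-1` (the type `Fin p`) and `∞`, so `n = p + 1`.  The boundary divisors of
`M̄_{0,n}` are the `δ_S`, `S` a set of marks different from `∞` with `2 ≤ |S| < p` (`δ_S`
separates `S` from the other marks).
-/

namespace Pool.Agent.Results.MP_23e236_ag.CollisionColouring

open Finset

variable {p : ℕ}

/-- `c` is a family of coefficients: it stands for the divisor `∑ c S • δ_S`, the sum over the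
`S` with `2 ≤ |S| < p`; it vanishes on the sets that give no boundary divisor. -/
def IsDivisor (c : Finset (Fin p) → ℝ) : Prop :=
  (∀ S : Finset (Fin p), S.card ≤ 1 → c S = 0) ∧ c univ = 0

/-- `∑ c S • δ_S` has nonnegative degree on every F-curve: the F-curve of the partition
`A, B, C, (the rest, with ∞)` of the marks has degree `1` on `δ_(A∪B), δ_(A∪C), δ_(B∪C)`, degree
`-1` on `δ_A, δ_B, δ_C, δ_(A∪B∪C)` (those of them that exist) and `0` on the others. -/
def FNef (c : Finset (Fin p) → ℝ) : Prop :=
  ∀ A B C : Finset (Fin p), A.Nonempty → B.Nonempty → C.Nonempty →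
    Disjoint A B → Disjoint A C → Disjoint B C →
    c A + c B + c C + c (A ∪ B ∪ C) ≤ c (A ∪ B) + c (A ∪ C) + c (B ∪ C)

/-- `m S` are the intersection numbers `C · δ_S` of a curve `C` that is not contained in the
boundary, and `d = C · ψ_∞`: all `m S ≥ 0`, and for all marks `i ≠ j` different from `∞`
`ψ_∞ = ∑ δ_S`, the sum over the `S` containing `i` and `j`. -/
def IsCurve (m : Finset (Fin p) → ℕ) (d : ℕ) : Prop :=
  (∀ S : Finset (Fin p), S.card ≤ 1 → m S = 0) ∧ m univ = 0 ∧
    ∀ i j : Fin p, i ≠ j →
      ∑ S ∈ univ.filter (fun S : Finset (Fin p) => i ∈ S ∧ j ∈ S), m S = d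

/-- The degree of `∑ c S • δ_S` on the curve. -/
def degree (c : Finset (Fin p) → ℝ) (m : Finset (Fin p) → ℕ) : ℝ :=
  ∑ S : Finset (Fin p), c S * m S

/-- The marks of `S` that come before `x`. -/
def below (x : Fin p) (S : Finset (Fin p)) : Finset (Fin p) := S.filter fun y => y.val < x.val

/-- For every mark `x` the collisions that contain `x` and at least two earlier marks can be
coloured with `d` colours (a collision of multiplicity `m S` gets `m S` colours) so that no colour
is given to two of them that share an earlier mark. -/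
def Colourable (m : Finset (Fin p) → ℕ) (d : ℕ) : Prop :=
  ∀ x : Fin p, ∃ col : Finset (Fin p) → Finset (Fin d),
    (∀ S : Finset (Fin p), x ∈ S → 2 ≤ (below x S).card → (col S).card = m S) ∧
    ∀ S T : Finset (Fin p), x ∈ S → x ∈ T → S ≠ T → 2 ≤ (below x S).card →
      2 ≤ (below x T).card → (below x S ∩ below x T).Nonempty → Disjoint (col S) (col T)

/-- The positions of the marks `i ≠ ∞` at the point `τ` of the projective line when they move
linearly, `x_i(t) = a i + b i * t`; the value `none` is the point `t = ∞`, where the positions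
are rescaled by `1/t`. -/
def pos {k : Type} [Field k] (a b : Fin p → k) (τ : Option k) (i : Fin p) : k :=
  match τ with
  | none => b i
  | some t => a i + b i * t

/-- The number of points `τ` of the projective line at which exactly the marks of `S` collide. -/
noncomputable def collisions {k : Type} [Field k] (a b : Fin p → k) (S : Finset (Fin p)) : ℕ :=
  Set.ncard {τ : Option k | ∃ y : k, ∀ i, i ∈ S ↔ pos a b τ i = y}

/-! ### The combinatorial core -/

lemma mem_cut {k : ℕ} {S : Finset (Fin p)} {y : Fin p} :
    y ∈ S.filter (fun y : Fin p => y.val < k) ↔ y ∈ S ∧ y.val < k := by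
  rw [mem_filter]

section core

variable (h : Finset (Fin p) → ℝ) (hs : ∀ S : Finset (Fin p), S.card ≤ 2 → h S = 0)
  (hF : ∀ A B C : Finset (Fin p), A.Nonempty → B.Nonempty → C.Nonempty →
    Disjoint A B → Disjoint A C → Disjoint B C →
    h (A ∪ B) + h (A ∪ C) + h (B ∪ C) ≤ h (A ∪ B ∪ C) + h A + h B + h C)

include hs hF

lemma superadd (x : Fin p) {A B : Finset (Fin p)} (hA : x ∉ A) (hB : x ∉ B) (hAB : Disjoint A B) :
    (h (insert x A) - h A) + (h (insert x B) - h B) ≤ h (insert x (A ∪ B)) - h (A ∪ B) := by
  rcases A.eq_empty_or_nonempty with rfl | hAn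
  · have h0 : h (insert x ∅) = 0 := hs _ (by simp)
    have h1 : h ∅ = 0 := hs _ (by simp)
    rw [empty_union, h0, h1]; linarith
  rcases B.eq_empty_or_nonempty with rfl | hBn
  · have h0 : h (insert x ∅) = 0 := hs _ (by simp)
    have h1 : h ∅ = 0 := hs _ (by simp)
    rw [union_empty, h0, h1]; linarith
  have h1 := hF A B {x} hAn hBn (singleton_nonempty x) hAB (by simpa using hA) (by simpa using hB)
  have h2 : h {x} = 0 := hs _ (by simp)
  have e1 : A ∪ {x} = insert x A := by ext; simp
  have e2 : B ∪ {x} = insert x B := by ext; simp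
  have e3 : A ∪ B ∪ {x} = insert x (A ∪ B) := by ext; simp
  rw [e1, e2, e3] at h1
  linarith

lemma incr_nonneg (x : Fin p) (S : Finset (Fin p)) (hx : x ∉ S) : 0 ≤ h (insert x S) - h S := by
  induction S using Finset.induction_on with
  | empty =>
    have h0 : h (insert x ∅) = 0 := hs _ (by simp)
    have h1 : h ∅ = 0 := hs _ (by simp)
    rw [h0, h1]; simp
  | insert i S hi ih =>
    have hxi : x ≠ i := by rintro rfl; exact hx (mem_insert_self _ _)
    have hxS : x ∉ S := fun h' => hx (mem_insert_of_mem h')
    have h1 := superadd h hs hF x (A := {i}) (B := S) (by simpa using hxi) hxS (by simpa using hi)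
    have h2 : h (insert x {i}) = 0 := hs _ (card_le_two)
    have h3 : h {i} = 0 := hs _ (by simp)
    have h4 := ih hxS
    have e1 : {i} ∪ S = insert i S := by ext; simp
    rw [e1, h2, h3] at h1
    linarith

lemma family {ι : Type} [DecidableEq ι] (x : Fin p) (s : Finset ι) (B : ι → Finset (Fin p)) :
    ∀ U : Finset (Fin p), x ∉ U → (∀ a ∈ s, B a ⊆ U) →
      (∀ a ∈ s, ∀ b ∈ s, a ≠ b → Disjoint (B a) (B b)) →
      ∑ a ∈ s, (h (insert x (B a)) - h (B a)) ≤ h (insert x U) - h U := by
  induction s using Finset.induction_on with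
  | empty =>
    intro U hx _ _
    simpa using incr_nonneg h hs hF x U hx
  | insert a s ha ih =>
    intro U hx hU hd
    rw [sum_insert ha]
    have hBa : B a ⊆ U := hU a (mem_insert_self _ _)
    have h1 := ih (U \ B a) (fun h' => hx (mem_sdiff.1 h').1)
      (fun b hb => by
        intro y hy
        refine mem_sdiff.2 ⟨hU b (mem_insert_of_mem hb) hy, fun hya => ?_⟩
        have hab : a ≠ b := by rintro rfl; exact ha hb
        exact disjoint_left.1 (hd a (mem_insert_self _ _) b (mem_insert_of_mem hb) hab) hya hy)
      (fun b hb b' hb' => hd b (mem_insert_of_mem hb) b' (mem_insert_of_mem hb'))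
    have h2 := superadd h hs hF x (A := B a) (B := U \ B a) (fun h' => hx (hBa h'))
      (fun h' => hx (mem_sdiff.1 h').1) disjoint_sdiff
    rw [union_sdiff_of_subset hBa] at h2
    linarith

/-- The main estimate along the order of the marks. -/
theorem core {m : Finset (Fin p) → ℕ} {d : ℕ} (hcol : Colourable m d) :
    ∀ k : ℕ, k ≤ p → ∑ S : Finset (Fin p), m S * h (S.filter fun y => y.val < k) ≤
      d * h (univ.filter fun y : Fin p => y.val < k) := by
  intro k
  induction k with
  | zero =>
    intro _
    rw [hs _ (by simp), mul_zero]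
    refine (sum_eq_zero fun S _ => ?_).le
    rw [hs _ (by simp), mul_zero]
  | succ k ih =>
    intro hk
    have ih' := ih (by omega)
    obtain ⟨col, hc1, hc2⟩ := hcol ⟨k, by omega⟩
    set x : Fin p := ⟨k, by omega⟩ with hx
    have hxk : ∀ S : Finset (Fin p), x ∉ S.filter (fun y : Fin p => y.val < k) := by
      intro S h'
      have := (mem_cut.1 h').2
      rw [hx] at this
      exact lt_irrefl _ this
    have hstep : ∀ S : Finset (Fin p), x ∈ S →
        S.filter (fun y : Fin p => y.val < k + 1) =
          insert x (S.filter fun y : Fin p => y.val < k) := by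
      intro S hS
      ext y
      rw [mem_insert, mem_cut, mem_cut]
      constructor
      · rintro ⟨h1, h2⟩
        by_cases hy : y.val = k
        · exact Or.inl (Fin.ext hy)
        · exact Or.inr ⟨h1, by omega⟩
      · rintro (rfl | ⟨h1, h2⟩)
        · exact ⟨hS, by rw [hx]; exact Nat.lt_succ_self k⟩
        · exact ⟨h1, by omega⟩
    have hstep' : ∀ S : Finset (Fin p), x ∉ S →
        S.filter (fun y : Fin p => y.val < k + 1) = S.filter fun y : Fin p => y.val < k := by
      intro S hS
      ext y
      rw [mem_cut, mem_cut]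
      constructor
      · rintro ⟨h1, h2⟩
        refine ⟨h1, ?_⟩
        by_contra h3
        exact hS ((Fin.ext (by rw [hx]; show k = y.val; omega) : x = y) ▸ h1)
      · rintro ⟨h1, h2⟩
        exact ⟨h1, by omega⟩
    have h1 : ∑ S : Finset (Fin p), (m S : ℝ) * h (S.filter fun y => y.val < k + 1) =
        ∑ S : Finset (Fin p), (m S : ℝ) * h (S.filter fun y => y.val < k) +
        ∑ a : Fin d, ∑ S ∈ univ.filter (fun S : Finset (Fin p) =>
          x ∈ S ∧ 2 ≤ (below x S).card ∧ a ∈ col S),
          (h (insert x (below x S)) - h (below x S)) := by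
      have h2 : ∀ S : Finset (Fin p), (m S : ℝ) * h (S.filter fun y => y.val < k + 1) =
          (m S : ℝ) * h (S.filter fun y => y.val < k) +
          ∑ a : Fin d, if x ∈ S ∧ 2 ≤ (below x S).card ∧ a ∈ col S then
            (h (insert x (below x S)) - h (below x S)) else 0 := by
        intro S
        have hb : below x S = S.filter fun y => y.val < k := rfl
        by_cases hS : x ∈ S
        · rw [hstep S hS, ← hb]
          by_cases hS2 : 2 ≤ (below x S).card
          · rw [← sum_filter, sum_const, nsmul_eq_mul]
            have h3 : (univ.filter fun a : Fin d => x ∈ S ∧ 2 ≤ (below x S).card ∧ a ∈ col S) =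
                col S := by
              ext a
              simp [hS, hS2]
            rw [h3, hc1 S hS hS2]
            ring
          · rw [hs (below x S) (by omega), hs (insert x (below x S))
              ((card_insert_le _ _).trans (by omega))]
            simp
        · rw [hstep' S hS]
          simp [hS]
      rw [sum_congr rfl fun S _ => h2 S, sum_add_distrib]
      congr 1
      rw [sum_comm]
      refine sum_congr rfl fun a _ => ?_
      rw [sum_filter]
    rw [h1, hstep univ (mem_univ _)]
    have h4 : ∑ a : Fin d, ∑ S ∈ univ.filter (fun S : Finset (Fin p) =>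
          x ∈ S ∧ 2 ≤ (below x S).card ∧ a ∈ col S),
          (h (insert x (below x S)) - h (below x S)) ≤
        ∑ _a : Fin d, (h (insert x (univ.filter fun y : Fin p => y.val < k)) -
          h (univ.filter fun y : Fin p => y.val < k)) := by
      refine sum_le_sum fun a _ => ?_
      refine family h hs hF x _ (below x) _ (hxk univ) ?_ ?_
      · intro S _ y hy
        exact mem_cut.2 ⟨mem_univ _, (mem_cut.1 hy).2⟩
      · intro S hS T hT hST
        rw [mem_filter] at hS hT
        by_contra hdis
        have hne : (below x S ∩ below x T).Nonempty := by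
          rw [nonempty_iff_ne_empty]
          intro h0
          exact hdis (disjoint_iff_inter_eq_empty.2 h0)
        exact disjoint_left.1 (hc2 S T hS.2.1 hT.2.1 hST hS.2.2.1 hT.2.2.1 hne)
          hS.2.2.2 hT.2.2.2
    rw [sum_const, card_univ, Fintype.card_fin, nsmul_eq_mul] at h4
    linarith

end core

/-! ### The change of gauge -/

/-- Sum of `c` over ordered pairs. -/
def X (c : Finset (Fin p) → ℝ) (A B : Finset (Fin p)) : ℝ := ∑ i ∈ A, ∑ j ∈ B, c {i, j}

lemma X_comm (c : Finset (Fin p) → ℝ) (A B : Finset (Fin p)) : X c A B = X c B A := by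
  unfold X
  rw [sum_comm]
  refine sum_congr rfl fun i _ => sum_congr rfl fun j _ => ?_
  rw [pair_comm]

lemma X_union_left (c : Finset (Fin p) → ℝ) {A B : Finset (Fin p)} (h : Disjoint A B) (E : Finset (Fin p)) :
    X c (A ∪ B) E = X c A E + X c B E := by
  unfold X
  rw [sum_union h]

lemma X_union_right (c : Finset (Fin p) → ℝ) {A B : Finset (Fin p)} (h : Disjoint A B) (E : Finset (Fin p)) :
    X c E (A ∪ B) = X c E A + X c E B := by
  rw [X_comm, X_union_left c h, X_comm c A, X_comm c B]

/-- The divisor in the basis `ψ_∞`, `δ_S` (`|S| ≥ 3`), up to sign. -/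
noncomputable def H (c : Finset (Fin p) → ℝ) (S : Finset (Fin p)) : ℝ := X c S S / 2 - c S

lemma H_small {c : Finset (Fin p) → ℝ} (hc : IsDivisor c) (S : Finset (Fin p)) (hS : S.card ≤ 2) :
    H c S = 0 := by
  unfold H X
  have h1 : S.card = 0 ∨ S.card = 1 ∨ S.card = 2 := by omega
  rcases h1 with h1 | h1 | h1
  · rw [card_eq_zero] at h1
    subst h1
    simp [hc.1 ∅ (by simp)]
  · rw [card_eq_one] at h1
    obtain ⟨i, rfl⟩ := h1
    simp [hc.1 {i} (by simp)]
  · rw [card_eq_two] at h1
    obtain ⟨i, j, hij, rfl⟩ := h1
    have e1 : c {i, i} = 0 := hc.1 _ (by simp)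
    have e2 : c {j, j} = 0 := hc.1 _ (by simp)
    rw [sum_pair hij, sum_pair hij, sum_pair hij, e1, e2, pair_comm j i]
    ring

lemma H_F {c : Finset (Fin p) → ℝ} (hF : FNef c) (A B C : Finset (Fin p)) (hA : A.Nonempty)
    (hB : B.Nonempty) (hC : C.Nonempty) (hAB : Disjoint A B) (hAC : Disjoint A C)
    (hBC : Disjoint B C) :
    H c (A ∪ B) + H c (A ∪ C) + H c (B ∪ C) ≤ H c (A ∪ B ∪ C) + H c A + H c B + H c C := by
  have h1 := hF A B C hA hB hC hAB hAC hBC
  have hABC : Disjoint (A ∪ B) C := disjoint_union_left.2 ⟨hAC, hBC⟩
  unfold H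
  rw [X_union_left c hAB, X_union_right c hAB, X_union_right c hAB, X_union_left c hAC,
    X_union_right c hAC, X_union_right c hAC, X_union_left c hBC, X_union_right c hBC,
    X_union_right c hBC, X_union_left c hABC, X_union_right c hABC, X_union_right c hABC,
    X_union_left c hAB, X_union_left c hAB, X_union_right c hAB, X_union_right c hAB,
    X_union_right c hAB, X_comm c B A, X_comm c C A, X_comm c C B]
  linarith

lemma degree_eq {c : Finset (Fin p) → ℝ} (hc : IsDivisor c) {m : Finset (Fin p) → ℕ} {d : ℕ}
    (hm : IsCurve m d) : degree c m = d * H c univ - ∑ S : Finset (Fin p), m S * H c S := by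
  have h1 : ∑ S : Finset (Fin p), (m S : ℝ) * X c S S = d * X c univ univ := by
    have h2 : ∀ S : Finset (Fin p), (m S : ℝ) * X c S S =
        ∑ i : Fin p, ∑ j : Fin p, if i ∈ S ∧ j ∈ S then c {i, j} * m S else 0 := by
      intro S
      unfold X
      rw [mul_sum]
      rw [← sum_subset (subset_univ S)]
      · refine sum_congr rfl fun i hi => ?_
        rw [mul_sum, ← sum_subset (subset_univ S)]
        · refine sum_congr rfl fun j hj => ?_
          rw [if_pos ⟨hi, hj⟩, mul_comm]
        · intro j _ hj
          rw [if_neg (fun h => hj h.2)]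
      · intro i _ hi
        refine sum_eq_zero fun j _ => ?_
        rw [if_neg (fun h => hi h.1)]
    rw [sum_congr rfl fun S _ => h2 S, sum_comm]
    unfold X
    rw [mul_sum]
    refine sum_congr rfl fun i _ => ?_
    rw [sum_comm, mul_sum]
    refine sum_congr rfl fun j _ => ?_
    by_cases hij : i = j
    · subst hij
      have e1 : c {i, i} = 0 := hc.1 _ (by simp)
      rw [e1]
      simp
    · rw [← sum_filter, ← mul_sum, mul_comm]
      congr 1
      have := hm.2.2 i j hij
      rw [← this]
      push_cast
      rfl
  unfold degree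
  have h3 : ∀ S : Finset (Fin p), c S * m S = (m S * X c S S) / 2 - m S * H c S := by
    intro S
    unfold H
    ring
  rw [sum_congr rfl fun S _ => h3 S, sum_sub_distrib, ← sum_div, h1]
  have h4 : H c univ = X c univ univ / 2 := by
    unfold H
    rw [hc.2]; ring
  rw [h4]
  ring

/-- The colouring theorem. -/
theorem colour {c : Finset (Fin p) → ℝ} (hc : IsDivisor c) (hF : FNef c)
    {m : Finset (Fin p) → ℕ} {d : ℕ} (hm : IsCurve m d) (hcol : Colourable m d) :
    0 ≤ degree c m := by
  rw [degree_eq hc hm]
  have h1 := core (H c) (H_small hc) (H_F hF) hcol p le_rfl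
  have h2 : ∀ S : Finset (Fin p), (S.filter fun y => y.val < p) = S := by
    intro S
    rw [filter_true_of_mem]
    intro y _
    exact y.isLt
  rw [h2 univ, sum_congr rfl fun S _ => by rw [h2 S]] at h1
  linarith

/-- Curves of `ψ_∞`-degree `1`. -/
theorem deg_one {c : Finset (Fin p) → ℝ} (hc : IsDivisor c) (hF : FNef c)
    {m : Finset (Fin p) → ℕ} (hm : IsCurve m 1) : 0 ≤ degree c m := by
  have hle : ∀ S : Finset (Fin p), 2 ≤ S.card → m S ≤ 1 := by
    intro S hS
    obtain ⟨i, hi, j, hj, hij⟩ := one_lt_card.1 (show 1 < S.card by omega)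
    rw [← hm.2.2 i j hij]
    exact single_le_sum (f := m) (fun _ _ => Nat.zero_le _) (mem_filter.2 ⟨mem_univ _, hi, hj⟩)
  refine colour hc hF hm ?_
  intro x
  refine ⟨fun S => if m S = 0 then ∅ else univ, ?_, ?_⟩
  · intro S hxS hS
    have hcard : (below x S).card ≤ S.card := card_le_card (filter_subset _ _)
    have := hle S (by omega)
    by_cases h0 : m S = 0
    · simp [h0]
    · have : m S = 1 := by omega
      simp [this]
  · intro S T hxS hxT hST hS hT hne
    by_cases h0 : m S = 0
    · simp [h0]
    by_cases h1 : m T = 0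
    · simp [h1]
    exfalso
    obtain ⟨y, hy⟩ := hne
    rw [mem_inter] at hy
    have hyS := mem_cut.1 hy.1
    have hyT := mem_cut.1 hy.2
    have hxy : x ≠ y := by
      rintro rfl
      exact lt_irrefl _ hyS.2
    have h2 := hm.2.2 x y hxy
    have h3 : ∑ U ∈ ({S, T} : Finset (Finset (Fin p))), m U ≤
        ∑ U ∈ univ.filter (fun U : Finset (Fin p) => x ∈ U ∧ y ∈ U), m U := by
      refine sum_le_sum_of_subset ?_
      intro U hU
      rw [mem_insert, mem_singleton] at hU
      rcases hU with rfl | rfl
      · exact mem_filter.2 ⟨mem_univ _, hxS, hyS.1⟩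
      · exact mem_filter.2 ⟨mem_univ _, hxT, hyT.1⟩
    rw [sum_pair hST, h2] at h3
    omega

/-! ### Marks that move linearly -/

section linear

variable {k : Type} [Field k] {a b : Fin p → k}

lemma pos_unique {i j : Fin p} (hij : a i ≠ a j ∨ b i ≠ b j) {τ τ' : Option k}
    (h : pos a b τ i = pos a b τ j) (h' : pos a b τ' i = pos a b τ' j) : τ = τ' := by
  cases τ with
  | none =>
    cases τ' with
    | none => rfl
    | some t' =>
      simp only [pos] at h h'
      exfalso
      rcases hij with h1 | h1
      · apply h1
        rw [h] at h'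
        exact add_right_cancel h'
      · exact h1 h
  | some t =>
    cases τ' with
    | none =>
      simp only [pos] at h h'
      exfalso
      rcases hij with h1 | h1
      · apply h1
        rw [h'] at h
        exact add_right_cancel h
      · exact h1 h'
    | some t' =>
      simp only [pos] at h h'
      have h2 : (b i - b j) * (t - t') = 0 := by linear_combination h - h'
      rcases mul_eq_zero.1 h2 with h3 | h3
      · exfalso
        have h4 : b i = b j := sub_eq_zero.1 h3
        rcases hij with h1 | h1
        · apply h1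
          rw [h4] at h
          exact add_right_cancel h
        · exact h1 h4
      · rw [sub_eq_zero.1 h3]

lemma pos_exists (i j : Fin p) : ∃ τ : Option k, pos a b τ i = pos a b τ j := by
  by_cases h : b i = b j
  · exact ⟨none, h⟩
  · have h' : b i - b j ≠ 0 := sub_ne_zero.2 h
    refine ⟨some (-(a i - a j) / (b i - b j)), ?_⟩
    simp only [pos]
    field_simp
    ring

/-- Marks moving linearly. -/
theorem linear {c : Finset (Fin p) → ℝ} (hc : IsDivisor c) (hF : FNef c)
    (hab : ∀ i j : Fin p, i ≠ j → a i ≠ a j ∨ b i ≠ b j) :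
    0 ≤ ∑ S ∈ univ.filter (fun S : Finset (Fin p) => 2 ≤ S.card ∧ S.card < p),
      c S * collisions a b S := by
  classical
  by_cases hall : ∃ τ : Option k, ∃ y : k, ∀ i, pos a b τ i = y
  · obtain ⟨τ, y, hy⟩ := hall
    refine le_of_eq (sum_eq_zero fun S hS => ?_).symm
    rw [mem_filter] at hS
    have h0 : collisions a b S = 0 := by
      unfold collisions
      rw [Set.ncard_eq_zero (Set.Subsingleton.finite ?_)]
      · rw [Set.eq_empty_iff_forall_notMem]
        rintro τ' ⟨y', hy'⟩
        obtain ⟨i, hi, j, hj, hij⟩ := one_lt_card.1 (show 1 < S.card by omega)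
        have h1 : τ' = τ := pos_unique (hab i j hij)
          (((hy' i).1 hi).trans ((hy' j).1 hj).symm) ((hy i).trans (hy j).symm)
        subst h1
        have h2 : S = univ := by
          ext l
          simp only [mem_univ, iff_true]
          rw [hy' l, hy l, ← (hy' i).1 hi, hy i]
        rw [h2, card_univ, Fintype.card_fin] at hS
        omega
      · rintro τ' ⟨y', hy'⟩ τ'' ⟨y'', hy''⟩
        obtain ⟨i, hi, j, hj, hij⟩ := one_lt_card.1 (show 1 < S.card by omega)
        exact pos_unique (hab i j hij) (((hy' i).1 hi).trans ((hy' j).1 hj).symm)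
          (((hy'' i).1 hi).trans ((hy'' j).1 hj).symm)
    rw [h0]; simp
  · have hm : IsCurve (fun S : Finset (Fin p) =>
        if 2 ≤ S.card ∧ S.card < p then collisions a b S else 0) 1 := by
      refine ⟨?_, ?_, ?_⟩
      · intro S hS
        show (if 2 ≤ S.card ∧ S.card < p then collisions a b S else 0) = 0
        rw [if_neg (by omega)]
      · show (if 2 ≤ (univ : Finset (Fin p)).card ∧ (univ : Finset (Fin p)).card < p
          then collisions a b univ else 0) = 0
        rw [if_neg]
        rw [card_univ, Fintype.card_fin]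
        omega
      · intro i j hij
        obtain ⟨τ, hτ⟩ := pos_exists (a := a) (b := b) i j
        set S₀ : Finset (Fin p) := univ.filter fun l => pos a b τ l = pos a b τ i with hS₀
        have hmem : ∀ l, l ∈ S₀ ↔ pos a b τ l = pos a b τ i := by
          intro l
          rw [hS₀, mem_filter]
          simp
        have hi : i ∈ S₀ := (hmem i).2 rfl
        have hj : j ∈ S₀ := (hmem j).2 hτ.symm
        have hcard2 : 2 ≤ S₀.card := one_lt_card.2 ⟨i, hi, j, hj, hij⟩
        have hcardp : S₀.card < p := by
          by_contra hge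
          have h1 : S₀ = univ := by
            apply eq_univ_of_card
            rw [Fintype.card_fin]
            have h2 : S₀.card ≤ p := by
              have := card_le_univ S₀
              rwa [Fintype.card_fin] at this
            omega
          apply hall
          refine ⟨τ, pos a b τ i, fun l => ?_⟩
          rw [← hmem l, h1]
          exact mem_univ _
        have hcoll : collisions a b S₀ = 1 := by
          unfold collisions
          rw [Set.ncard_eq_one]
          refine ⟨τ, ?_⟩
          ext τ'
          rw [Set.mem_singleton_iff]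
          constructor
          · rintro ⟨y', hy'⟩
            exact pos_unique (hab i j hij) (((hy' i).1 hi).trans ((hy' j).1 hj).symm) hτ
          · rintro rfl
            exact ⟨pos a b τ' i, hmem⟩
        rw [sum_eq_single S₀]
        · show (if 2 ≤ S₀.card ∧ S₀.card < p then collisions a b S₀ else 0) = 1
          rw [if_pos ⟨hcard2, hcardp⟩, hcoll]
        · intro S hS hne
          show (if 2 ≤ S.card ∧ S.card < p then collisions a b S else 0) = 0
          rw [mem_filter] at hS
          split_ifs with h1
          · unfold collisions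
            have hempty : {τ : Option k | ∃ y : k, ∀ i, i ∈ S ↔ pos a b τ i = y} = ∅ := by
              rw [Set.eq_empty_iff_forall_notMem]
              rintro τ' ⟨y', hy'⟩
              have h2 : τ' = τ := pos_unique (hab i j hij)
                (((hy' i).1 hS.2.1).trans ((hy' j).1 hS.2.2).symm) hτ
              subst h2
              apply hne
              ext l
              rw [hy' l, hmem l, (hy' i).1 hS.2.1]
            rw [hempty, Set.ncard_empty]
          · rfl
        · intro hnot
          exact absurd (mem_filter.2 ⟨mem_univ _, hi, hj⟩) hnot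
    have h1 := deg_one hc hF hm
    unfold degree at h1
    rw [sum_filter]
    refine h1.trans_eq (sum_congr rfl fun S _ => ?_)
    by_cases h2 : 2 ≤ S.card ∧ S.card < p
    · simp only [if_pos h2]
    · simp only [if_neg h2, Nat.cast_zero, mul_zero]

end linear

/-- **Main theorem.** Let `D = ∑ c S • δ_S` be an F-nef divisor on `M̄_{0,p+1}` and let `C` be a
curve class with `C · δ_S = m S ≥ 0` for all boundary divisors and `C · ψ_∞ = d`.
1. If the collisions of marks on `C` can be coloured with `d` colours along the order of the marks,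
   then `D · C ≥ 0`.
2. If `d = 1`, then `D · C ≥ 0`.
3. `D · C ≥ 0` for the curve `t ↦ (a_i + b_i t)_i, ∞` over any field. -/
theorem result :
    ∀ (p : ℕ) (c : Finset (Fin p) → ℝ), IsDivisor c → FNef c →
      (∀ (m : Finset (Fin p) → ℕ) (d : ℕ), IsCurve m d → Colourable m d → 0 ≤ degree c m) ∧
      (∀ m : Finset (Fin p) → ℕ, IsCurve m 1 → 0 ≤ degree c m) ∧
      (∀ (k : Type) [Field k] (a b : Fin p → k),
        (∀ i j : Fin p, i ≠ j → a i ≠ a j ∨ b i ≠ b j) →
        0 ≤ ∑ S ∈ univ.filter (fun S : Finset (Fin p) => 2 ≤ S.card ∧ S.card < p),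
          c S * collisions a b S) :=
  fun _ _ hc hF => ⟨fun _ _ hm hcol => colour hc hF hm hcol, fun _ hm => deg_one hc hF hm,
    fun _ _ _ _ hab => linear hc hF hab⟩

end Pool.Agent.Results.MP_23e236_ag.CollisionColouring
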